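import Pool.Agent.Q234.PL.Stm

set_option autoImplicit false

/-!
# PL-MK: a matrix product vector of small bond dimension has a kernel on a block
-/

namespace Pool.Agent.Q257.PL.MK

open scoped BigOperators
open Finset Pool.Agent.Q234.PL

/-- `h` on the first `c` positions, `h'` elsewhere -/
def mix {N D : ℕ} (c : ℕ) (h h' : Fin (N + 1) → Fin D) : Fin (N + 1) → Fin D :=
  fun i => if (i : ℕ) < c then h i else h' i

/-- a sum over the labels with two fixed values factorises -/
lemma fiber_sum {N D : ℕ} (c : ℕ) (F : Finset (Fin (N + 1) → Fin D)) (P Q : (Fin (N + 1) → Fin D) → ℂ)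
    (hF : ∀ h ∈ F, ∀ h' ∈ F, mix c h h' ∈ F) (hP : ∀ h ∈ F, ∀ h' ∈ F, P (mix c h h') = P h)
    (hQ : ∀ h ∈ F, ∀ h' ∈ F, Q (mix c h h') = Q h') :
    (∑ h ∈ F, P h) * (∑ h ∈ F, Q h) = F.card * ∑ h ∈ F, P h * Q h := by
  have hmix : ∀ h h' : Fin (N + 1) → Fin D, mix c (mix c h h') (mix c h' h) = h := by
    intro h h'
    funext i
    unfold mix
    by_cases hi : (i : ℕ) < c
    · simp [hi]
    · simp [hi]
  calc (∑ h ∈ F, P h) * (∑ h ∈ F, Q h) = ∑ z ∈ F ×ˢ F, P z.1 * Q z.2 := by
        rw [Finset.sum_mul_sum, Finset.sum_product]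
    _ = ∑ z ∈ F ×ˢ F, P z.1 * Q z.1 := by
        refine Finset.sum_nbij' (fun z => (mix c z.1 z.2, mix c z.2 z.1)) (fun z => (mix c z.1 z.2, mix c z.2 z.1))
          ?_ ?_ ?_ ?_ ?_
        · rintro ⟨h, h'⟩ hz
          rw [Finset.mem_product] at hz ⊢
          exact ⟨hF _ hz.1 _ hz.2, hF _ hz.2 _ hz.1⟩
        · rintro ⟨h, h'⟩ hz
          rw [Finset.mem_product] at hz ⊢
          exact ⟨hF _ hz.1 _ hz.2, hF _ hz.2 _ hz.1⟩
        · rintro ⟨h, h'⟩ _
          simp only [hmix]
        · rintro ⟨h, h'⟩ _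
          simp only [hmix]
        · rintro ⟨h, h'⟩ hz
          rw [Finset.mem_product] at hz
          simp only
          rw [hP _ hz.1 _ hz.2, hQ _ hz.1 _ hz.2]
    _ = F.card * ∑ h ∈ F, P h * Q h := by
        rw [Finset.sum_product]
        simp only [Finset.sum_const, nsmul_eq_mul]
        rw [Finset.mul_sum]

theorem main : MpsKernel := by
  intro N m D φ hm hmN hD ⟨A, hA⟩
  subst hA
  set a0 : Fin (N + 1) := Fin.last N with ha0
  set a1 : Fin (N + 1) := ⟨m - 1, by omega⟩ with ha1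
  set fib : Fin D × Fin D → Finset (Fin (N + 1) → Fin D) := fun β =>
    Finset.univ.filter fun h => (h a0, h a1) = β with hfib
  set P : (Fin m → Fin 2) → (Fin (N + 1) → Fin D) → ℂ := fun p h =>
    ∏ x ∈ Finset.univ.filter (fun x : Fin (N + 1) => (x : ℕ) < m),
      A x (paste (N := N) p (fun _ => 0) x) (h (x - 1)) (h x) with hP
  set Q : Cf N → (Fin (N + 1) → Fin D) → ℂ := fun t h =>
    ∏ x ∈ Finset.univ.filter (fun x : Fin (N + 1) => ¬ (x : ℕ) < m), A x (t x) (h (x - 1)) (h x) with hQ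
  have hsub : ∀ x : Fin (N + 1), (x : ℕ) ≠ 0 → ((x - 1 : Fin (N + 1)) : ℕ) = x - 1 := by
    intro x hx
    have hx0 : x ≠ 0 := fun h => hx (by rw [h]; rfl)
    rw [Fin.coe_sub_one, if_neg hx0]
  have hsub0 : (0 - 1 : Fin (N + 1)) = a0 := by
    apply Fin.ext
    rw [Fin.coe_sub_one, if_pos rfl, ha0, Fin.val_last]
  -- membership
  have hF : ∀ β, ∀ h ∈ fib β, ∀ h' ∈ fib β, mix (m - 1) h h' ∈ fib β := by
    intro β h _ h' hh'
    simp only [hfib, Finset.mem_filter, Finset.mem_univ, true_and] at hh' ⊢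
    have e0 : mix (m - 1) h h' a0 = h' a0 := by
      unfold mix
      rw [if_neg]
      simp only [ha0, Fin.val_last]
      omega
    have e1 : mix (m - 1) h h' a1 = h' a1 := by
      unfold mix
      rw [if_neg]
      simp [ha1]
    rw [e0, e1]
    exact hh'
  have hval : ∀ β, ∀ h ∈ fib β, ∀ h' ∈ fib β, h a0 = h' a0 ∧ h a1 = h' a1 := by
    intro β h hh h' hh'
    simp only [hfib, Finset.mem_filter, Finset.mem_univ, true_and] at hh hh'
    rw [← hh'] at hh
    exact ⟨congrArg Prod.fst hh, congrArg Prod.snd hh⟩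
  -- values of the mixture on the block
  have hmixP : ∀ β, ∀ h ∈ fib β, ∀ h' ∈ fib β, ∀ x : Fin (N + 1), (x : ℕ) < m →
      mix (m - 1) h h' x = h x := by
    intro β h hh h' hh' x hx
    unfold mix
    by_cases hx1 : (x : ℕ) < m - 1
    · rw [if_pos hx1]
    · rw [if_neg hx1]
      have : x = a1 := Fin.ext (by simp only [ha1]; omega)
      rw [this]
      exact (hval β h hh h' hh').2.symm
  have hmix0 : ∀ β, ∀ h ∈ fib β, ∀ h' ∈ fib β, mix (m - 1) h h' a0 = h a0 := by
    intro β h hh h' hh'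
    unfold mix
    rw [if_neg (by simp only [ha0, Fin.val_last]; omega)]
    exact (hval β h hh h' hh').1.symm
  have hPm : ∀ p β, ∀ h ∈ fib β, ∀ h' ∈ fib β, P p (mix (m - 1) h h') = P p h := by
    intro p β h hh h' hh'
    simp only [hP]
    refine Finset.prod_congr rfl fun x hx => ?_
    rw [Finset.mem_filter] at hx
    have e1 := hmixP β h hh h' hh' x hx.2
    have e2 : mix (m - 1) h h' (x - 1) = h (x - 1) := by
      by_cases hx0 : (x : ℕ) = 0
      · have : x = 0 := Fin.ext hx0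
        rw [this, hsub0]
        exact hmix0 β h hh h' hh'
      · exact hmixP β h hh h' hh' (x - 1) (by rw [hsub x hx0]; omega)
    rw [e1, e2]
  have hQm : ∀ t β, ∀ h ∈ fib β, ∀ h' ∈ fib β, Q t (mix (m - 1) h h') = Q t h' := by
    intro t β h hh h' hh'
    simp only [hQ]
    refine Finset.prod_congr rfl fun x hx => ?_
    rw [Finset.mem_filter] at hx
    have e1 : mix (m - 1) h h' x = h' x := by
      unfold mix
      rw [if_neg (by omega)]
    have e2 : mix (m - 1) h h' (x - 1) = h' (x - 1) := by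
      unfold mix
      rw [if_neg]
      rw [hsub x (by omega)]
      omega
    rw [e1, e2]
  -- the factorisation
  have hfact : ∀ (p : Fin m → Fin 2) (t : Cf N),
      ∑ h : Fin (N + 1) → Fin D, ∏ x : Fin (N + 1), A x (paste p t x) (h (x - 1)) (h x) =
        ∑ β : Fin D × Fin D, (∑ h ∈ fib β, P p h) * (((fib β).card : ℂ)⁻¹ * ∑ h ∈ fib β, Q t h) := by
    intro p t
    have e1 : ∀ h : Fin (N + 1) → Fin D, ∏ x : Fin (N + 1), A x (paste p t x) (h (x - 1)) (h x) = P p h * Q t h := by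
      intro h
      rw [← Finset.prod_filter_mul_prod_filter_not Finset.univ (fun x : Fin (N + 1) => (x : ℕ) < m)]
      simp only [hP, hQ]
      congr 1
      · refine Finset.prod_congr rfl fun x hx => ?_
        rw [Finset.mem_filter] at hx
        unfold paste
        rw [dif_pos hx.2, dif_pos hx.2]
      · refine Finset.prod_congr rfl fun x hx => ?_
        rw [Finset.mem_filter] at hx
        unfold paste
        rw [dif_neg hx.2]
    rw [Finset.sum_congr rfl fun h _ => e1 h]
    rw [← Finset.sum_fiberwise Finset.univ (fun h : Fin (N + 1) → Fin D => (h a0, h a1))]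
    refine Finset.sum_congr rfl fun β _ => ?_
    have h1 := fiber_sum (m - 1) (fib β) (P p) (Q t) (hF β) (hPm p β) (hQm t β)
    by_cases hc : (fib β).card = 0
    · have hemp : fib β = ∅ := Finset.card_eq_zero.1 hc
      show ∑ h ∈ fib β, P p h * Q t h = _
      rw [hemp]
      simp
    · have hc' : ((fib β).card : ℂ) ≠ 0 := by exact_mod_cast hc
      show ∑ h ∈ fib β, P p h * Q t h = _
      have h2 : (∑ h ∈ fib β, P p h) * (((fib β).card : ℂ)⁻¹ * ∑ h ∈ fib β, Q t h) =
          ((fib β).card : ℂ)⁻¹ * ((∑ h ∈ fib β, P p h) * ∑ h ∈ fib β, Q t h) := by ring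
      rw [h2, h1, ← mul_assoc, inv_mul_cancel₀ hc', one_mul]
  -- linear algebra
  let L : ((Fin m → Fin 2) → ℂ) →ₗ[ℂ] (Fin D × Fin D → ℂ) :=
    { toFun := fun v β => ∑ p, v p * ∑ h ∈ fib β, P p h
      map_add' := by
        intro v w
        funext β
        simp only [Pi.add_apply, add_mul, Finset.sum_add_distrib]
      map_smul' := by
        intro c v
        funext β
        simp only [Pi.smul_apply, smul_eq_mul, RingHom.id_apply, Finset.mul_sum, mul_assoc] }
  have hker : LinearMap.ker L ≠ ⊥ := by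
    apply LinearMap.ker_ne_bot_of_finrank_lt
    rw [Module.finrank_fintype_fun_eq_card, Module.finrank_fintype_fun_eq_card, Fintype.card_prod, Fintype.card_fin,
      Fintype.card_fun, Fintype.card_fin, Fintype.card_fin, ← sq]
    exact hD
  obtain ⟨v, hv, hv0⟩ := (Submodule.ne_bot_iff _).1 hker
  refine ⟨v, hv0, fun t => ?_⟩
  have hL : ∀ β, ∑ p, v p * ∑ h ∈ fib β, P p h = 0 := fun β => congrFun (LinearMap.mem_ker.1 hv) β
  simp only [hfact]
  simp only [Finset.mul_sum (s := (Finset.univ : Finset (Fin D × Fin D)))]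
  rw [Finset.sum_comm]
  refine Finset.sum_eq_zero fun β _ => ?_
  have e : ∀ p, v p * ((∑ h ∈ fib β, P p h) * (((fib β).card : ℂ)⁻¹ * ∑ h ∈ fib β, Q t h)) =
      (v p * ∑ h ∈ fib β, P p h) * (((fib β).card : ℂ)⁻¹ * ∑ h ∈ fib β, Q t h) := fun p => by ring
  rw [Finset.sum_congr rfl fun p _ => e p, ← Finset.sum_mul, hL β, zero_mul]

end Pool.Agent.Q257.PL.MK
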