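import Pool.Agent.Q234.PL.Stm

set_option autoImplicit false

/-!
# PL-TB: lower bounds for tensor products
-/

namespace Pool.Agent.Q257.PL.TB

open scoped BigOperators
open Finset Pool.Agent.Q234.PL

lemma sum_cons {M : Type} [AddCommMonoid M] {k : ℕ} {α : Type} [Fintype α] (f : (Fin (k + 1) → α) → M) :
    ∑ a, f a = ∑ a0, ∑ a' : Fin k → α, f (Fin.cons a0 a') := by
  rw [← (Fin.consEquiv (fun _ => α)).sum_comp, Fintype.sum_prod_type]
  rfl

theorem main : TensorBound := by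
  intro k
  induction k with
  | zero =>
    intro α β _ _ K g _ _ v
    simp
  | succ k ih =>
    intro α β _ _ K g hg hK v
    rw [sum_cons (fun a => ‖v a‖ ^ 2), sum_cons (fun b : Fin (k + 1) → β =>
      ‖∑ a, (∏ y, K y (b y) (a y)) * v a‖ ^ 2), Fin.prod_univ_succ]
    -- the operator on the other factors
    set T : (Fin k → β) → α → ℂ := fun b' a0 =>
      ∑ a' : Fin k → α, (∏ y : Fin k, K y.succ (b' y) (a' y)) * v (Fin.cons a0 a') with hT
    have h1 : ∀ a0, (∏ y : Fin k, g y.succ) * ∑ a' : Fin k → α, ‖v (Fin.cons a0 a')‖ ^ 2 ≤ ∑ b', ‖T b' a0‖ ^ 2 :=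
      fun a0 => ih α β (fun y => K y.succ) (fun y => g y.succ) (fun y => hg _) (fun y => hK _)
        (fun a' => v (Fin.cons a0 a'))
    have h2 : ∀ (b0 : β) (b' : Fin k → β), ∑ a, (∏ y, K y ((Fin.cons b0 b' : Fin (k + 1) → β) y) (a y)) * v a =
        ∑ a0, K 0 b0 a0 * T b' a0 := by
      intro b0 b'
      rw [sum_cons]
      refine Finset.sum_congr rfl fun a0 _ => ?_
      simp only [hT]
      rw [Finset.mul_sum]
      refine Finset.sum_congr rfl fun a' _ => ?_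
      rw [Fin.prod_univ_succ]
      simp only [Fin.cons_zero, Fin.cons_succ]
      ring
    calc g 0 * (∏ y : Fin k, g y.succ) * ∑ a0, ∑ a' : Fin k → α, ‖v (Fin.cons a0 a')‖ ^ 2
        = g 0 * ∑ a0, (∏ y : Fin k, g y.succ) * ∑ a' : Fin k → α, ‖v (Fin.cons a0 a')‖ ^ 2 := by
          rw [mul_assoc, Finset.mul_sum]
      _ ≤ g 0 * ∑ a0, ∑ b', ‖T b' a0‖ ^ 2 :=
          mul_le_mul_of_nonneg_left (Finset.sum_le_sum fun a0 _ => h1 a0) (hg 0)
      _ = ∑ b', g 0 * ∑ a0, ‖T b' a0‖ ^ 2 := by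
          rw [Finset.sum_comm, Finset.mul_sum]
      _ ≤ ∑ b', ∑ b0, ‖∑ a0, K 0 b0 a0 * T b' a0‖ ^ 2 := Finset.sum_le_sum fun b' _ => hK 0 (T b')
      _ = ∑ b0, ∑ b', ‖∑ a0, K 0 b0 a0 * T b' a0‖ ^ 2 := Finset.sum_comm
      _ = ∑ b0, ∑ b' : Fin k → β,
          ‖∑ a, (∏ y, K y ((Fin.cons b0 b' : Fin (k + 1) → β) y) (a y)) * v a‖ ^ 2 := by
          refine Finset.sum_congr rfl fun b0 _ => Finset.sum_congr rfl fun b' _ => ?_
          rw [h2]

end Pool.Agent.Q257.PL.TB
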